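import Pool.Agent.Y223.G.Stm4
import Pool.Agent.Y71.G.RFT

/-!
# The graded algebra of a chart is of finite type (`S_RFT0`)
-/

set_option autoImplicit false

namespace Pool.Agent.Z932.G

open Pool.Agent.Y223.G Pool.Agent.Y71.G IsLocalRing

/-- The graded algebra of a chart is of finite type. -/
theorem t_RFT0 : S_RFT0 := by
  intro k O K _ _ _ _ _ _ _ _ _ _ p hp τ 𝔓 l hft _ C _ hCf
  have hNO : IsNoetherianRing O := inferInstance
  obtain ⟨G, hG⟩ := hft.out
  obtain ⟨F, hF⟩ := (Subalgebra.fg_iff_finiteType C).2 hCf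
  obtain ⟨E, hE⟩ := (isNoetherianRing_iff_ideal_fg O).1 hNO 𝔓
  set F' : Set K := (F : Set K) ∪ (algebraMap O K) '' (G : Set O) with hF'
  set gen : Set (LP K) := {hm (-1) 1} ∪ (fun e : O => hm 1 (algebraMap O K e)) '' (E : Set O) ∪
    (fun q : K × ℕ => hm (wt l q.2) ((df τ)^[q.2] q.1)) '' (F' ×ˢ Set.Iio p) with hgen
  have hfin : gen.Finite := by
    refine ((Set.finite_singleton _).union (E.finite_toSet.image _)).union (Set.Finite.image _ ?_)
    exact ((F.finite_toSet.union (G.finite_toSet.image _)).prod (Set.finite_Iio p))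
  set R : Subalgebra k (LP K) := Algebra.adjoin k gen with hR
  have hR1 : hm (-1) (1 : K) ∈ R := Algebra.subset_adjoin (Or.inl (Or.inl rfl))
  have hFS : ∀ c ∈ F', c ∈ SS τ p l R hR1 := by
    intro c hc a ha
    exact Algebra.subset_adjoin (Or.inr ⟨(c, a), ⟨hc, ha⟩, rfl⟩)
  have hOS : ∀ o : O, algebraMap O K o ∈ SS τ p l R hR1 := by
    have h1 : Algebra.adjoin k (G : Set O) ≤
        (SS τ p l R hR1).comap (IsScalarTower.toAlgHom k O K) := by
      rw [Algebra.adjoin_le_iff]
      intro g hg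
      exact hFS _ (Or.inr ⟨g, hg, rfl⟩)
    rw [hG] at h1
    exact fun o => h1 (Algebra.mem_top (R := k) (A := O) (x := o))
  have hCS : ∀ c ∈ C, c ∈ SS τ p l R hR1 := by
    intro c hc
    rw [← hF] at hc
    induction hc using Algebra.adjoin_induction with
    | mem x hx => exact hFS _ (Or.inl hx)
    | algebraMap r => exact hOS r
    | add x y _ _ hx hy => exact (SS τ p l R hR1).add_mem hx hy
    | mul x y _ _ hx hy => exact (SS τ p l R hR1).mul_mem hx hy
  have hle : RR k τ p 𝔓 l C ≤ R := by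
    unfold RR
    rw [Algebra.adjoin_le_iff]
    rintro f ((hf | ⟨e, he, rfl⟩) | ⟨a, c, hc, ha, rfl⟩)
    · rw [Set.mem_singleton_iff.1 hf]
      exact hR1
    · rw [← hE] at he
      refine Submodule.span_induction (p := fun e _ => hm 1 (algebraMap O K e) ∈ R)
        ?_ ?_ ?_ ?_ he
      · intro e he
        exact Algebra.subset_adjoin (Or.inl (Or.inr ⟨e, he, rfl⟩))
      · rw [map_zero, hm_zero]
        exact R.zero_mem
      · intro u v _ _ hu hv
        rw [map_add, hm_add]
        exact R.add_mem hu hv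
      · intro b u _ hu
        have h1 := hOS b 0 hp
        rw [Pool.Agent.Y71.G.wt_zero] at h1
        have h2 := R.mul_mem h1 hu
        rw [hm_mul] at h2
        rw [smul_eq_mul, map_mul]
        have h3 : ((0 : ℕ) : ℤ) + 1 = 1 := by norm_num
        rw [h3] at h2
        exact h2
    · exact hCS c hc a ha
  have hge : R ≤ RR k τ p 𝔓 l C := by
    rw [hR, Algebra.adjoin_le_iff]
    have hFC : ∀ c ∈ F', c ∈ C := by
      rintro c (hc | ⟨g, _, rfl⟩)
      · rw [← hF]
        exact Algebra.subset_adjoin hc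
      · exact C.algebraMap_mem g
    rintro f ((hf | ⟨e, he, rfl⟩) | ⟨⟨c, a⟩, ⟨hc, ha⟩, rfl⟩)
    · exact Algebra.subset_adjoin (Or.inl (Or.inl hf))
    · refine Algebra.subset_adjoin (Or.inl (Or.inr ⟨e, ?_, rfl⟩))
      rw [← hE]
      exact Submodule.subset_span he
    · exact Algebra.subset_adjoin (Or.inr ⟨a, c, hFC c hc, ha, rfl⟩)
  rw [← Subalgebra.fg_iff_finiteType, le_antisymm hle hge]
  exact Subalgebra.fg_def.2 ⟨gen, hfin, rfl⟩

end Pool.Agent.Z932.G
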