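import Pool.Agent.Y223.G.Stm2

/-!
# Étale coordinates of linearly disjoint products (`S_ETP`, `S_ETC`)
-/

set_option autoImplicit false
set_option linter.style.haveILetI false

open TensorProduct

namespace Pool.Agent.Z932.G

/-! ### tensor products of étale maps -/

theorem etale_left {R P S Q : Type} [CommRing R] [CommRing P] [CommRing S] [CommRing Q]
    [Algebra R P] [Algebra R S] [Algebra R Q] (f : P →ₐ[R] S) (hf : f.toRingHom.Etale) :
    (Algebra.TensorProduct.map f (AlgHom.id R Q)).toRingHom.Etale := by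
  let i1 : Algebra P S := f.toRingHom.toAlgebra
  have i2 : IsScalarTower R P S := IsScalarTower.of_algebraMap_eq' f.comp_algebraMap.symm
  let i3 : Algebra (P ⊗[R] Q) (S ⊗[R] Q) :=
    (Algebra.TensorProduct.map f (AlgHom.id R Q)).toRingHom.toAlgebra
  have i4 : IsScalarTower P (P ⊗[R] Q) (S ⊗[R] Q) := by
    refine IsScalarTower.of_algebraMap_eq fun x => ?_
    change (f x) ⊗ₜ[R] (1 : Q) = (Algebra.TensorProduct.map f (AlgHom.id R Q)) (x ⊗ₜ 1)
    rw [Algebra.TensorProduct.map_tmul, map_one]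
  have i5 : Algebra.IsPushout P S (P ⊗[R] Q) (S ⊗[R] Q) := by
    apply Algebra.IsPushout.tensorProduct_tensorProduct R Q P S
    apply RingHom.ext
    intro x
    change (Algebra.TensorProduct.map f (AlgHom.id R Q)) (1 ⊗ₜ x) = 1 ⊗ₜ x
    rw [Algebra.TensorProduct.map_tmul, map_one]
    rfl
  exact RingHom.Etale.isStableUnderBaseChange P S (P ⊗[R] Q) (S ⊗[R] Q) hf

theorem etale_right {R P S Q : Type} [CommRing R] [CommRing P] [CommRing S] [CommRing Q]
    [Algebra R P] [Algebra R S] [Algebra R Q] (f : P →ₐ[R] S) (hf : f.toRingHom.Etale) :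
    (Algebra.TensorProduct.map (AlgHom.id R Q) f).toRingHom.Etale := by
  have h1 := etale_left (Q := Q) f hf
  have h2 : (Algebra.TensorProduct.comm R S Q).toRingEquiv.toRingHom.Etale :=
    RingHom.Etale.of_bijective (Algebra.TensorProduct.comm R S Q).bijective
  have h3 : (Algebra.TensorProduct.comm R Q P).toRingEquiv.toRingHom.Etale :=
    RingHom.Etale.of_bijective (Algebra.TensorProduct.comm R Q P).bijective
  have h4 := RingHom.Etale.stableUnderComposition _ _
    (RingHom.Etale.stableUnderComposition _ _ h3 h1) h2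
  have h5 : (Algebra.TensorProduct.map (AlgHom.id R Q) f) =
      ((Algebra.TensorProduct.comm R S Q).toAlgHom.comp
        ((Algebra.TensorProduct.map f (AlgHom.id R Q)).comp
          (Algebra.TensorProduct.comm R Q P).toAlgHom)) := by
    apply Algebra.TensorProduct.ext'
    intro a b
    simp
  rw [h5]
  exact h4

/-! ### the abstract statement -/

theorem away_tensor {O A B : Type} [CommRing O] [CommRing A] [CommRing B] [Algebra O A]
    [Algebra O B] (g : A) (g' : B) :
    letI : Algebra (A ⊗[O] B) (Localization.Away g ⊗[O] Localization.Away g') :=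
      (Algebra.TensorProduct.map (IsScalarTower.toAlgHom O A (Localization.Away g))
        (IsScalarTower.toAlgHom O B (Localization.Away g'))).toRingHom.toAlgebra
    IsLocalization.Away (g ⊗ₜ[O] g') (Localization.Away g ⊗[O] Localization.Away g') := by
  let A' := Localization.Away g
  let B' := Localization.Away g'
  -- the first factor
  let i1 : Algebra (A ⊗[O] B) (A' ⊗[O] B) :=
    (Algebra.TensorProduct.map (IsScalarTower.toAlgHom O A A') (AlgHom.id O B)).toRingHom.toAlgebra
  have a1 : ∀ (x : A) (y : B), algebraMap (A ⊗[O] B) (A' ⊗[O] B) (x ⊗ₜ y) =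
      (algebraMap A A' x) ⊗ₜ y := fun x y => rfl
  have i2 : IsScalarTower A (A ⊗[O] B) (A' ⊗[O] B) := by
    refine IsScalarTower.of_algebraMap_eq fun x => ?_
    rw [Algebra.TensorProduct.algebraMap_apply, Algebra.TensorProduct.algebraMap_apply, a1]
    rfl
  have L1 : IsLocalization (Algebra.algebraMapSubmonoid (A ⊗[O] B) (Submonoid.powers g))
      (A' ⊗[O] B) := by
    apply IsLocalization.tensorProduct_tensorProduct O B (Submonoid.powers g) A'
    apply RingHom.ext
    intro x
    change algebraMap (A ⊗[O] B) (A' ⊗[O] B) (1 ⊗ₜ x) = 1 ⊗ₜ x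
    rw [a1, map_one]
  have e1 : Algebra.algebraMapSubmonoid (A ⊗[O] B) (Submonoid.powers g) =
      Submonoid.powers (g ⊗ₜ[O] (1 : B)) := by
    rw [Algebra.algebraMapSubmonoid_powers]
    rfl
  rw [e1] at L1
  have L1' : IsLocalization.Away (g ⊗ₜ[O] (1 : B)) (A' ⊗[O] B) := L1
  -- the second factor
  let i3 : Algebra (A' ⊗[O] B) (A' ⊗[O] B') :=
    (Algebra.TensorProduct.map (AlgHom.id O A') (IsScalarTower.toAlgHom O B B')).toRingHom.toAlgebra
  have a2 : ∀ (x : A') (y : B), algebraMap (A' ⊗[O] B) (A' ⊗[O] B') (x ⊗ₜ y) =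
      x ⊗ₜ (algebraMap B B' y) := fun x y => rfl
  have i4 : IsScalarTower A' (A' ⊗[O] B) (A' ⊗[O] B') := by
    refine IsScalarTower.of_algebraMap_eq (R := A') (S := A' ⊗[O] B) (A := A' ⊗[O] B')
      fun x => ?_
    rw [Algebra.TensorProduct.algebraMap_apply, Algebra.TensorProduct.algebraMap_apply, a2,
      map_one]
  have L2 : IsLocalization ((Submonoid.powers g').map
      (Algebra.TensorProduct.includeRight : B →ₐ[O] A' ⊗[O] B)) (A' ⊗[O] B') := by
    apply IsLocalization.tensorProduct_tensorProduct_right O A' (Submonoid.powers g') B'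
    apply RingHom.ext
    intro x
    change algebraMap (A' ⊗[O] B) (A' ⊗[O] B') (1 ⊗ₜ x) = 1 ⊗ₜ (algebraMap B B' x)
    rw [a2]
  rw [Submonoid.map_powers] at L2
  let i5 : Algebra (A ⊗[O] B) (A' ⊗[O] B') :=
    (Algebra.TensorProduct.map (IsScalarTower.toAlgHom O A A')
      (IsScalarTower.toAlgHom O B B')).toRingHom.toAlgebra
  have i6 : IsScalarTower (A ⊗[O] B) (A' ⊗[O] B) (A' ⊗[O] B') := by
    refine IsScalarTower.of_algebraMap_eq' ?_
    have h1 : (Algebra.TensorProduct.map (IsScalarTower.toAlgHom O A A')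
        (IsScalarTower.toAlgHom O B B')) =
        (Algebra.TensorProduct.map (AlgHom.id O A') (IsScalarTower.toAlgHom O B B')).comp
          (Algebra.TensorProduct.map (IsScalarTower.toAlgHom O A A') (AlgHom.id O B)) := by
      apply Algebra.TensorProduct.ext'
      intro a b
      simp
    exact congrArg AlgHom.toRingHom h1
  have L2' : IsLocalization.Away (algebraMap (A ⊗[O] B) (A' ⊗[O] B) ((1 : A) ⊗ₜ[O] g'))
      (A' ⊗[O] B') := by
    rw [a1, map_one]
    exact L2
  have L3 := IsLocalization.Away.mul' (A' ⊗[O] B) (A' ⊗[O] B') (g ⊗ₜ[O] (1 : B))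
    ((1 : A) ⊗ₜ[O] g')
  rw [Algebra.TensorProduct.tmul_mul_tmul, mul_one, one_mul] at L3
  exact L3

theorem abs0 {O A B C A' B' D : Type} [CommRing O] [CommRing A] [CommRing B] [CommRing C]
    [CommRing A'] [CommRing B'] [CommRing D] [Algebra O A] [Algebra O B] [Algebra O C]
    [Algebra O A'] [Algebra O B'] (fA : A →ₐ[O] A') (fB : B →ₐ[O] B') (e : A ⊗[O] B ≃ₐ[O] C)
    (φ : C →+* D) (ψ : A' ⊗[O] B' ≃+* D)
    (hψ : ∀ x, ψ (Algebra.TensorProduct.map fA fB x) = φ (e x)) {ι κ : Type} (u : ι → A)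
    (v : κ → B)
    (hu : (fA.comp (MvPolynomial.aeval u : MvPolynomial ι O →ₐ[O] A)).toRingHom.Etale)
    (hv : (fB.comp (MvPolynomial.aeval v : MvPolynomial κ O →ₐ[O] B)).toRingHom.Etale)
    (w : ι ⊕ κ → C) (hw1 : ∀ i, w (Sum.inl i) = e (u i ⊗ₜ 1))
    (hw2 : ∀ j, w (Sum.inr j) = e (1 ⊗ₜ v j)) :
    (φ.comp (MvPolynomial.aeval w : MvPolynomial (ι ⊕ κ) O →ₐ[O] C).toRingHom).Etale := by
  have h1 := etale_left (Q := MvPolynomial κ O) _ hu
  have h2 := etale_right (Q := A') _ hv
  have h3 : ((MvPolynomial.tensorEquivSum O ι κ O).symm.toRingEquiv.toRingHom).Etale :=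
    RingHom.Etale.of_bijective (MvPolynomial.tensorEquivSum O ι κ O).symm.bijective
  have h4 : ψ.toRingHom.Etale := RingHom.Etale.of_bijective ψ.bijective
  have h5 := RingHom.Etale.stableUnderComposition _ _ (RingHom.Etale.stableUnderComposition _ _
    (RingHom.Etale.stableUnderComposition _ _ h3 h1) h2) h4
  have k1 : ∀ r : O, (MvPolynomial.tensorEquivSum O ι κ O).symm (MvPolynomial.C r) =
      MvPolynomial.C r ⊗ₜ 1 := by
    intro r
    rw [AlgEquiv.symm_apply_eq, MvPolynomial.tensorEquivSum_C_tmul_one]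
  have k2 : ∀ i : ι, (MvPolynomial.tensorEquivSum O ι κ O).symm (MvPolynomial.X (Sum.inl i)) =
      MvPolynomial.X i ⊗ₜ 1 := by
    intro i
    rw [AlgEquiv.symm_apply_eq, MvPolynomial.tensorEquivSum_X_tmul_one]
  have k3 : ∀ j : κ, (MvPolynomial.tensorEquivSum O ι κ O).symm (MvPolynomial.X (Sum.inr j)) =
      1 ⊗ₜ MvPolynomial.X j := by
    intro j
    rw [AlgEquiv.symm_apply_eq, MvPolynomial.tensorEquivSum_one_tmul_X]
  have h6 : φ.comp (MvPolynomial.aeval w : MvPolynomial (ι ⊕ κ) O →ₐ[O] C).toRingHom =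
      ψ.toRingHom.comp ((Algebra.TensorProduct.map (AlgHom.id O A')
        (fB.comp (MvPolynomial.aeval v : MvPolynomial κ O →ₐ[O] B))).toRingHom.comp
        ((Algebra.TensorProduct.map (fA.comp (MvPolynomial.aeval u : MvPolynomial ι O →ₐ[O] A))
          (AlgHom.id O (MvPolynomial κ O))).toRingHom.comp
          (MvPolynomial.tensorEquivSum O ι κ O).symm.toRingEquiv.toRingHom)) := by
    have key : ∀ x, (ψ.toRingHom.comp ((Algebra.TensorProduct.map (AlgHom.id O A')
        (fB.comp (MvPolynomial.aeval v : MvPolynomial κ O →ₐ[O] B))).toRingHom.comp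
        ((Algebra.TensorProduct.map (fA.comp (MvPolynomial.aeval u : MvPolynomial ι O →ₐ[O] A))
          (AlgHom.id O (MvPolynomial κ O))).toRingHom.comp
          (MvPolynomial.tensorEquivSum O ι κ O).symm.toRingEquiv.toRingHom))) x =
        ψ ((Algebra.TensorProduct.map (AlgHom.id O A')
        (fB.comp (MvPolynomial.aeval v : MvPolynomial κ O →ₐ[O] B)))
        ((Algebra.TensorProduct.map (fA.comp (MvPolynomial.aeval u : MvPolynomial ι O →ₐ[O] A))
          (AlgHom.id O (MvPolynomial κ O)))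
          ((MvPolynomial.tensorEquivSum O ι κ O).symm x))) := fun x => rfl
    have key2 : ∀ x, (φ.comp (MvPolynomial.aeval w : MvPolynomial (ι ⊕ κ) O →ₐ[O] C).toRingHom) x =
        φ (MvPolynomial.aeval w x) := fun x => rfl
    apply MvPolynomial.ringHom_ext
    · intro r
      rw [key, key2, k1, Algebra.TensorProduct.map_tmul, Algebra.TensorProduct.map_tmul, map_one,
        map_one, AlgHom.id_apply, AlgHom.comp_apply, MvPolynomial.aeval_C, MvPolynomial.aeval_C]
      have q1 : fA (algebraMap O A r) ⊗ₜ[O] (1 : B') =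
          Algebra.TensorProduct.map fA fB (algebraMap O A r ⊗ₜ 1) := by
        rw [Algebra.TensorProduct.map_tmul, map_one]
      have q2 : (algebraMap O A r) ⊗ₜ[O] (1 : B) = algebraMap O (A ⊗[O] B) r := by
        rw [Algebra.TensorProduct.algebraMap_apply]
      rw [q1, hψ, q2, AlgEquiv.commutes]
    · rintro (i | j)
      · rw [key, key2, k2, Algebra.TensorProduct.map_tmul, Algebra.TensorProduct.map_tmul, map_one,
          map_one, AlgHom.id_apply, AlgHom.comp_apply, MvPolynomial.aeval_X, MvPolynomial.aeval_X]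
        have q1 : fA (u i) ⊗ₜ[O] (1 : B') = Algebra.TensorProduct.map fA fB (u i ⊗ₜ 1) := by
          rw [Algebra.TensorProduct.map_tmul, map_one]
        rw [q1, hψ, hw1]
      · rw [key, key2, k3, Algebra.TensorProduct.map_tmul, Algebra.TensorProduct.map_tmul, map_one,
          map_one, AlgHom.id_apply, AlgHom.comp_apply, MvPolynomial.aeval_X, MvPolynomial.aeval_X]
        have q1 : (1 : A') ⊗ₜ[O] fB (v j) = Algebra.TensorProduct.map fA fB (1 ⊗ₜ v j) := by
          rw [Algebra.TensorProduct.map_tmul, map_one]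
        rw [q1, hψ, hw2]
  rw [h6]
  exact h5

theorem exists_psi {O A B C : Type} [CommRing O] [CommRing A] [CommRing B] [CommRing C]
    [Algebra O A] [Algebra O B] [Algebra O C] (e : A ⊗[O] B ≃ₐ[O] C) (g : A) (g' : B) (h : C)
    (hh : e (g ⊗ₜ g') = h) :
    ∃ ψ : Localization.Away g ⊗[O] Localization.Away g' ≃+* Localization.Away h,
      ∀ x, ψ (Algebra.TensorProduct.map (IsScalarTower.toAlgHom O A (Localization.Away g))
        (IsScalarTower.toAlgHom O B (Localization.Away g')) x) =
          algebraMap C (Localization.Away h) (e x) := by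
  letI i5 : Algebra (A ⊗[O] B) (Localization.Away g ⊗[O] Localization.Away g') :=
    (Algebra.TensorProduct.map (IsScalarTower.toAlgHom O A (Localization.Away g))
        (IsScalarTower.toAlgHom O B (Localization.Away g'))).toRingHom.toAlgebra
  haveI L : IsLocalization.Away (g ⊗ₜ[O] g') (Localization.Away g ⊗[O] Localization.Away g') :=
    away_tensor g g'
  have hM : (Submonoid.powers (g ⊗ₜ[O] g')).map e.toRingEquiv.toMonoidHom =
      Submonoid.powers h := by
    rw [Submonoid.map_powers]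
    exact congrArg Submonoid.powers hh
  exact ⟨IsLocalization.ringEquivOfRingEquiv (Localization.Away g ⊗[O] Localization.Away g')
    (Localization.Away h) e.toRingEquiv hM, fun x => IsLocalization.ringEquivOfRingEquiv_eq hM x⟩

theorem abs_etp {O A B C : Type} [CommRing O] [CommRing A] [CommRing B] [CommRing C]
    [Algebra O A] [Algebra O B] [Algebra O C] (e : A ⊗[O] B ≃ₐ[O] C) {ι κ : Type} (u : ι → A)
    (v : κ → B) (g : A) (g' : B)
    (hu : ((algebraMap A (Localization.Away g)).comp
      (MvPolynomial.aeval u : MvPolynomial ι O →ₐ[O] A).toRingHom).Etale)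
    (hv : ((algebraMap B (Localization.Away g')).comp
      (MvPolynomial.aeval v : MvPolynomial κ O →ₐ[O] B).toRingHom).Etale)
    (h : C) (hh : e (g ⊗ₜ g') = h) (w : ι ⊕ κ → C) (hw1 : ∀ i, w (Sum.inl i) = e (u i ⊗ₜ 1))
    (hw2 : ∀ j, w (Sum.inr j) = e (1 ⊗ₜ v j)) :
    ((algebraMap C (Localization.Away h)).comp
      (MvPolynomial.aeval w : MvPolynomial (ι ⊕ κ) O →ₐ[O] C).toRingHom).Etale := by
  obtain ⟨ψ, hψ⟩ := exists_psi e g g' h hh
  exact abs0 (IsScalarTower.toAlgHom O A (Localization.Away g))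
    (IsScalarTower.toAlgHom O B (Localization.Away g')) e _ ψ hψ u v hu hv w hw1 hw2

open Pool.Agent.Y223.G

theorem t_ETP : S_ETP := by
  intro O K _ _ _ A B C hC hA hB hlin Q _ ι κ _ _ u v hu hv
  subst hC
  obtain ⟨g, hg, hu⟩ := hu
  obtain ⟨g', hg', hv⟩ := hv
  refine ⟨Subalgebra.inclusion hA g * Subalgebra.inclusion hB g', ?_, ?_⟩
  · intro h
    rcases ‹Q.IsPrime›.mem_or_mem h with h | h
    · exact hg h
    · exact hg' h
  · refine abs_etp (O := O) (A := A) (B := B) hlin.mulMap u v g g' hu hv _ ?_ _ ?_ ?_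
    · apply Subtype.ext
      rw [Subalgebra.LinearDisjoint.val_mulMap_tmul]
      rfl
    · intro i
      apply Subtype.ext
      rw [Subalgebra.LinearDisjoint.val_mulMap_tmul]
      change (u i : K) = (u i : K) * 1
      rw [mul_one]
    · intro j
      apply Subtype.ext
      rw [Subalgebra.LinearDisjoint.val_mulMap_tmul]
      change (v j : K) = 1 * (v j : K)
      rw [one_mul]

/-! ### several factors -/

theorem EtAt_reindex {O K : Type} [CommRing O] [Field K] [Algebra O K] {A : Subalgebra O K}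
    {q : Ideal A} {ι ι' : Type} (e : ι ≃ ι') (v : ι' → A) (h : EtAt A q (v ∘ e)) :
    EtAt A q v := by
  obtain ⟨g, hg, he⟩ := h
  refine ⟨g, hg, ?_⟩
  have h1 : ((MvPolynomial.renameEquiv O e).symm.toRingEquiv.toRingHom).Etale :=
    RingHom.Etale.of_bijective (MvPolynomial.renameEquiv O e).symm.bijective
  have h2 := RingHom.Etale.stableUnderComposition _ _ h1 he
  have h3 : ((MvPolynomial.aeval v : MvPolynomial ι' O →ₐ[O] A)) =
      (MvPolynomial.aeval (v ∘ e) : MvPolynomial ι O →ₐ[O] A).comp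
        (MvPolynomial.renameEquiv O e).symm.toAlgHom := by
    apply MvPolynomial.algHom_ext
    intro i
    simp
  rw [h3]
  exact h2

theorem EtAt_eq {O K : Type} [CommRing O] [Field K] [Algebra O K] {A A' : Subalgebra O K}
    (h : A = A') (q : Ideal A') {ι : Type} (v : ι → A)
    (hA : EtAt A (q.comap (Subalgebra.inclusion h.le : A →+* A')) v) :
    EtAt A' q (fun i => Subalgebra.inclusion h.le (v i)) := by
  subst h
  exact hA

theorem CC_succ {O K : Type} [CommRing O] [Field K] [Algebra O K] (A : ℕ → Subalgebra O K)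
    (s : ℕ) : CC A (s + 1) = CC A s ⊔ A s := by
  apply le_antisymm
  · refine iSup_le fun i => ?_
    rcases Nat.lt_succ_iff_lt_or_eq.1 i.2 with h | h
    · exact (le_CC A h).trans le_sup_left
    · rw [h]
      exact le_sup_right
  · refine sup_le (iSup_le fun i => le_CC A (i.2.trans (Nat.lt_succ_self s))) ?_
    exact le_CC A (Nat.lt_succ_self s)

theorem CC_one {O K : Type} [CommRing O] [Field K] [Algebra O K] (A : ℕ → Subalgebra O K) :
    A 0 = CC A 1 := by
  apply le_antisymm
  · exact le_CC A zero_lt_one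
  · refine iSup_le fun i => ?_
    have : (i : ℕ) = 0 := by omega
    rw [this]

theorem CC_mono {O K : Type} [CommRing O] [Field K] [Algebra O K] (A : ℕ → Subalgebra O K)
    {s p : ℕ} (h : s ≤ p) : CC A s ≤ CC A p :=
  iSup_le fun i => le_CC A (i.2.trans_le h)

/-- the index sets -/
noncomputable def ee (s r : ℕ) : (Fin s × Fin r) ⊕ Fin r ≃ Fin (s + 1) × Fin r :=
  Equiv.ofBijective (Sum.elim (fun x => (x.1.castSucc, x.2)) (fun j => (Fin.last s, j))) (by
    constructor
    · rintro (⟨i, j⟩ | j) (⟨i', j'⟩ | j') h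
      · simp only [Sum.elim_inl, Prod.mk.injEq, Fin.castSucc_inj] at h
        rw [h.1, h.2]
      · simp only [Sum.elim_inl, Sum.elim_inr, Prod.mk.injEq] at h
        exact absurd h.1 (Fin.castSucc_lt_last i).ne
      · simp only [Sum.elim_inl, Sum.elim_inr, Prod.mk.injEq] at h
        exact absurd h.1.symm (Fin.castSucc_lt_last i').ne
      · simp only [Sum.elim_inr, Prod.mk.injEq, true_and] at h
        rw [h]
    · rintro ⟨i, j⟩
      refine Fin.lastCases ?_ (fun i => ?_) i
      · exact ⟨Sum.inr j, rfl⟩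
      · exact ⟨Sum.inl (i, j), rfl⟩)

theorem EtAt_congr {O K : Type} [CommRing O] [Field K] [Algebra O K] {A : Subalgebra O K}
    {q q' : Ideal A} {ι : Type} {v v' : ι → A} (hq : q = q') (hv : v = v') (h : EtAt A q v) :
    EtAt A q' v' := by
  subst hq
  subst hv
  exact h

theorem comap_comap_inclusion {O K : Type} [CommRing O] [Field K] [Algebra O K]
    {A B C : Subalgebra O K} (h1 : A ≤ B) (h2 : B ≤ C) (h3 : A ≤ C) (Q : Ideal C) :
    Q.comap (Subalgebra.inclusion h3 : A →+* C) =
      (Q.comap (Subalgebra.inclusion h2 : B →+* C)).comap (Subalgebra.inclusion h1 : A →+* B) := by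
  apply Ideal.ext
  intro x
  rw [Ideal.mem_comap, Ideal.mem_comap, Ideal.mem_comap]
  have : (Subalgebra.inclusion h3 : A →+* C) x =
      (Subalgebra.inclusion h2 : B →+* C) ((Subalgebra.inclusion h1 : A →+* B) x) :=
    Subtype.ext rfl
  rw [this]

theorem key_base {O K : Type} [CommRing O] [Field K] [Algebra O K] (A : ℕ → Subalgebra O K)
    (p : ℕ) (hs : 1 ≤ p) (Q : Ideal (CC A p)) (r : ℕ) (u : ∀ s : ℕ, Fin r → A s)
    (hu : EtAt (A 0) (Q.comap (Subalgebra.inclusion (le_CC A hs) : A 0 →+* CC A p)) (u 0)) :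
    EtAt (CC A 1) (Q.comap (Subalgebra.inclusion (CC_mono A hs) : CC A 1 →+* CC A p))
        (fun ij : Fin 1 × Fin r => Subalgebra.inclusion (le_CC A ij.1.2) (u ij.1 ij.2)) := by
  have h0 := EtAt_congr (comap_comap_inclusion (CC_one A).le (CC_mono A hs) (le_CC A hs) Q) rfl hu
  have h1 := EtAt_eq (CC_one A)
    (Q.comap (Subalgebra.inclusion (CC_mono A hs) : CC A 1 →+* CC A p)) (u 0) h0
  refine EtAt_reindex (Equiv.uniqueProd (Fin r) (Fin 1)).symm _ ?_
  refine EtAt_congr rfl ?_ h1
  funext i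
  exact Subtype.ext rfl

theorem key_succ (hETP : S_ETP) {O K : Type} [CommRing O] [Field K] [Algebra O K]
    (A : ℕ → Subalgebra O K)
    (p s : ℕ) (hs : s + 1 ≤ p) (hlin : (CC A s).LinearDisjoint (A s))
    (Q : Ideal (CC A p)) [Q.IsPrime] (r : ℕ) (u : ∀ s : ℕ, Fin r → A s)
    (h1 : EtAt (CC A s) (Q.comap (Subalgebra.inclusion (CC_mono A ((Nat.le_succ s).trans hs)) :
        CC A s →+* CC A p))
        (fun ij : Fin s × Fin r => Subalgebra.inclusion (le_CC A ij.1.2) (u ij.1 ij.2)))
    (h2 : EtAt (A s) (Q.comap (Subalgebra.inclusion (le_CC A hs) : A s →+* CC A p)) (u s)) :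
    EtAt (CC A (s + 1)) (Q.comap (Subalgebra.inclusion (CC_mono A hs) : CC A (s + 1) →+* CC A p))
        (fun ij : Fin (s + 1) × Fin r => Subalgebra.inclusion (le_CC A ij.1.2) (u ij.1 ij.2)) := by
  have h1' := EtAt_congr (comap_comap_inclusion (CC_mono A (Nat.le_succ s)) (CC_mono A hs)
    (CC_mono A ((Nat.le_succ s).trans hs)) Q) rfl h1
  have h2' := EtAt_congr (comap_comap_inclusion (le_CC A (Nat.lt_succ_self s)) (CC_mono A hs)
    (le_CC A hs) Q) rfl h2
  have h3 := hETP O K (CC A s) (A s) (CC A (s + 1)) (CC_succ A s) (CC_mono A (Nat.le_succ s))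
    (le_CC A (Nat.lt_succ_self s)) hlin
    (Q.comap (Subalgebra.inclusion (CC_mono A hs) : CC A (s + 1) →+* CC A p))
    (Fin s × Fin r) (Fin r)
    (fun ij : Fin s × Fin r => Subalgebra.inclusion (le_CC A ij.1.2) (u ij.1 ij.2)) (u s)
    h1' h2'
  refine EtAt_reindex (ee s r) _ ?_
  refine EtAt_congr rfl ?_ h3
  funext x
  rcases x with ⟨i, j⟩ | j
  · exact Subtype.ext rfl
  · exact Subtype.ext rfl

theorem comap_inclusion_refl {O K : Type} [CommRing O] [Field K] [Algebra O K]
    {A : Subalgebra O K} (h : A ≤ A) (Q : Ideal A) :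
    Q.comap (Subalgebra.inclusion h : A →+* A) = Q := by
  apply Ideal.ext
  intro x
  rw [Ideal.mem_comap]
  have : (Subalgebra.inclusion h : A →+* A) x = x := Subtype.ext rfl
  rw [this]

theorem t_ETC (hETP : S_ETP) : S_ETC := by
  intro O K _ _ _ A p hp hlin Q _ r u hu
  have key : ∀ s, 0 < s → ∀ hs : s ≤ p,
      EtAt (CC A s) (Q.comap (Subalgebra.inclusion (CC_mono A hs) : CC A s →+* CC A p))
        (fun ij : Fin s × Fin r => Subalgebra.inclusion (le_CC A ij.1.2) (u ij.1 ij.2)) := by
    intro s hs0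
    induction s, hs0 using Nat.le_induction with
    | base => exact fun hs => key_base A p hs Q r u (hu 0 hs)
    | succ s hs1 ih =>
      exact fun hs => key_succ hETP A p s hs (hlin s hs1 hs) Q r u
        (ih ((Nat.le_succ s).trans hs)) (hu s hs)
  exact EtAt_congr (comap_inclusion_refl _ Q) rfl (key p hp le_rfl)

end Pool.Agent.Z932.G
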